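import Pool.Agent.Q85.CL.Defs2

/-!
Project CL: cut-off and scaling, from an open set and viscosity `ν` to the class `LSl`.
-/

set_option autoImplicit false

open MeasureTheory Set Metric Filter Topology
open scoped ContDiff
open H459R3.NS Pool.Agent.W268.NS Pool.Agent.Q67.VD

namespace Pool.Agent.Q284.CL

open Pool.Agent.Q85.CC Pool.Agent.Q85.CL

lemma pd_evD {E : Type*} [NormedAddCommGroup E] [NormedSpace ℝ E] {f g : V → E} {x : V}
    (h : f =ᶠ[𝓝 x] g) (j : Fin 3) : pd j f =ᶠ[𝓝 x] pd j g := by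
  have h1 := h.fderiv (𝕜 := ℝ)
  filter_upwards [h1] with y hy
  unfold pd
  rw [hy]

lemma pd_cmulD (c : ℝ) (j : Fin 3) (f : V → ℝ) (x : V) :
    pd j (fun y => c * f y) x = c * pd j f x := by
  unfold pd
  have h : (fun y => c * f y) = c • f := rfl
  rw [h, fderiv_const_smul_field]
  rfl

lemma deriv_scaleD (ν : ℝ) (f : ℝ → ℝ) (t : ℝ) :
    deriv (fun s => ν⁻¹ * f (s / ν)) t = ν⁻¹ * (ν⁻¹ * deriv f (t / ν)) := by
  rw [deriv_const_mul_field]
  have h : (fun s : ℝ => f (s / ν)) = fun s : ℝ => f (ν⁻¹ * s) := by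
    funext s
    rw [div_eq_inv_mul]
  rw [h, deriv_comp_mul_left, smul_eq_mul, div_eq_inv_mul]

/-- Scaling of the first variable. -/
noncomputable def scl (c : ℝ) : ℝ × V →ₗ[ℝ] ℝ × V := LinearMap.prodMap (c • LinearMap.id) LinearMap.id

lemma scl_apply (c : ℝ) (z : ℝ × V) : scl c z = (c * z.1, z.2) := rfl

lemma intOn_scl {c : ℝ} (hc : 0 < c) {f : ℝ × V → ℝ} {s : Set (ℝ × V)} (hs : IntegrableOn f s) :
    IntegrableOn (fun z : ℝ × V => f (c * z.1, z.2))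
      ((fun z : ℝ × V => (c * z.1, z.2)) ⁻¹' s) := by
  have hH : (volume : Measure (ℝ × V)).IsAddHaarMeasure := by
    rw [Measure.volume_eq_prod]; infer_instance
  have hdet : LinearMap.det (scl c) ≠ 0 := by
    unfold scl
    rw [LinearMap.det_prodMap]
    simp [hc.ne']
  have hmap := Measure.map_linearMap_addHaar_eq_smul_addHaar (μ := (volume : Measure (ℝ × V))) hdet
  let e : (ℝ × V) ≃ₜ (ℝ × V) :=
    { toFun := fun z => (c * z.1, z.2)
      invFun := fun z => (c⁻¹ * z.1, z.2)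
      left_inv := fun z => by ext <;> simp [hc.ne']
      right_inv := fun z => by ext <;> simp [hc.ne']
      continuous_toFun := by fun_prop
      continuous_invFun := by fun_prop }
  have he : (e : ℝ × V → ℝ × V) = scl c := rfl
  have hemb : MeasurableEmbedding (e : ℝ × V → ℝ × V) := e.toMeasurableEquiv.measurableEmbedding
  have h1 : IntegrableOn f s (Measure.map e volume) := by
    rw [he, hmap]
    exact Integrable.mono_measure (Integrable.smul_measure hs ENNReal.ofReal_ne_top)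
      (by rw [Measure.restrict_smul])
  exact (hemb.integrableOn_map_iff).1 h1

/-- A bump function equal to one on a ball with compact support inside `Ω`. -/
lemma bumpD {Ω : Set V} (hΩ : IsOpen Ω) {a : V} {R : ℝ} (hR : 0 < R) (h : closedBall a R ⊆ Ω) :
    ∃ χ : V → ℝ, ContDiff ℝ ∞ χ ∧ (∀ x ∈ ball a R, χ x = 1) ∧ tsupport χ ⊆ Ω := by
  obtain ⟨δ, hδ, hsub⟩ := (isCompact_closedBall a R).exists_cthickening_subset_open hΩ h
  rw [cthickening_closedBall hδ.le hR.le] at hsub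
  let f : ContDiffBump a := ⟨R, δ + R, hR, by linarith⟩
  refine ⟨f, f.contDiff, fun x hx => f.one_of_mem_closedBall (ball_subset_closedBall hx), ?_⟩
  rw [f.tsupport_eq]
  exact hsub

/-- Smoothness of the cut-off field. -/
lemma smooth_cutD {F : Type*} [NormedAddCommGroup F] [NormedSpace ℝ F] {ν T k : ℝ} (hν : 0 < ν)
    {Ω : Set V} (hΩ : IsOpen Ω) {w : ℝ → V → F}
    (hw : ContDiffOn ℝ ∞ (fun z : ℝ × V => w z.1 z.2) (Ioo 0 T ×ˢ Ω)) {χ : V → ℝ}
    (hχ : ContDiff ℝ ∞ χ) (hs : tsupport χ ⊆ Ω) :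
    ContDiffOn ℝ ∞ (fun z : ℝ × V => χ z.2 • (k • w (z.1 / ν) z.2))
      (Ioo 0 (ν * T) ×ˢ (univ : Set V)) := by
  rintro ⟨s, x⟩ ⟨hs0, -⟩
  refine ContDiffAt.contDiffWithinAt ?_
  have hs0' : s / ν ∈ Ioo 0 T := by
    refine ⟨div_pos hs0.1 hν, ?_⟩
    rw [div_lt_iff₀ hν, mul_comm T ν]
    exact hs0.2
  have hχ2 : ContDiff ℝ ∞ (fun z : ℝ × V => χ z.2) := hχ.comp contDiff_snd
  by_cases hx : x ∈ Ω
  · have h1 : ContDiffAt ℝ ∞ (fun z : ℝ × V => w z.1 z.2) (s / ν, x) :=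
      hw.contDiffAt ((isOpen_Ioo.prod hΩ).mem_nhds ⟨hs0', hx⟩)
    have hlin : ContDiff ℝ ∞ (fun z : ℝ × V => (z.1 / ν, z.2)) := by fun_prop
    have h2 : ContDiffAt ℝ ∞ (fun z : ℝ × V => w (z.1 / ν) z.2) (s, x) :=
      ContDiffAt.comp (s, x) (f := fun z : ℝ × V => (z.1 / ν, z.2)) h1 hlin.contDiffAt
    exact hχ2.contDiffAt.smul (h2.const_smul k)
  · have hx' : x ∉ tsupport χ := fun h => hx (hs h)
    have h0 : χ =ᶠ[𝓝 x] 0 := notMem_tsupport_iff_eventuallyEq.1 hx'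
    have h1 : (fun z : ℝ × V => χ z.2 • (k • w (z.1 / ν) z.2)) =ᶠ[𝓝 (s, x)] fun _ => 0 := by
      have h2 : ∀ᶠ z : ℝ × V in 𝓝 (s, x), χ z.2 = 0 := by
        have hc : Tendsto (fun z : ℝ × V => z.2) (𝓝 (s, x)) (𝓝 x) := continuous_snd.tendsto' _ _ rfl
        exact hc.eventually h0
      filter_upwards [h2] with z hz
      rw [hz, zero_smul]
    exact contDiffAt_const.congr_of_eventuallyEq h1

theorem dom : StmDom := by
  intro ν T E Ω u p hν hT h a R hR hsub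
  obtain ⟨χ, hχ, hχ1, hχs⟩ := bumpD h.openO hR hsub
  have hbs : ball a R ⊆ Ω := ball_subset_closedBall.trans hsub
  set v : ℝ → V → V := fun s x => χ x • (ν⁻¹ • u (s / ν) x) with hv
  set q : ℝ → V → ℝ := fun s x => χ x • ((ν ^ 2)⁻¹ • p (s / ν) x) with hq
  have hveq : ∀ s, ∀ x ∈ ball a R, v s x = ν⁻¹ • u (s / ν) x := by
    intro s x hx
    simp only [hv, hχ1 x hx, one_smul]
  have hqeq : ∀ s, ∀ x ∈ ball a R, q s x = (ν ^ 2)⁻¹ * p (s / ν) x := by
    intro s x hx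
    simp only [hq, hχ1 x hx, smul_eq_mul, one_mul]
  have hmem : ∀ x ∈ ball a R, ball a R ∈ 𝓝 x := fun x hx => isOpen_ball.mem_nhds hx
  have hvev : ∀ s, ∀ x ∈ ball a R, ∀ i, (fun y => v s y i) =ᶠ[𝓝 x]
      fun y => ν⁻¹ * u (s / ν) y i := by
    intro s x hx i
    filter_upwards [hmem x hx] with y hy
    rw [hveq s y hy, Pi.smul_apply, smul_eq_mul]
  have hpd : ∀ s, ∀ x ∈ ball a R, ∀ i j, pd j (fun y => v s y i) x =
      ν⁻¹ * pd j (fun y => u (s / ν) y i) x := by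
    intro s x hx i j
    rw [(pd_evD (hvev s x hx i) j).eq_of_nhds, pd_cmulD]
  have hpdev : ∀ s, ∀ x ∈ ball a R, ∀ i j, pd j (fun y => v s y i) =ᶠ[𝓝 x]
      fun y => ν⁻¹ * pd j (fun y => u (s / ν) y i) y := by
    intro s x hx i j
    filter_upwards [hmem x hx] with y hy
    exact hpd s y hy i j
  have hdiv : ∀ t, t ∈ Ioo 0 (ν * T) → t / ν ∈ Ioo 0 T := by
    intro t ht
    refine ⟨div_pos ht.1 hν, ?_⟩
    rw [div_lt_iff₀ hν, mul_comm T ν]
    exact ht.2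
  have hgsq : ∀ s, ∀ x ∈ ball a R, W221.NS.gsq (v s) x = (ν⁻¹) ^ 2 * W221.NS.gsq (u (s / ν)) x := by
    intro s x hx
    unfold W221.NS.gsq
    simp only [hpd s x hx, mul_pow, Finset.mul_sum]
  have hnsq : ∀ s, ∀ x ∈ ball a R, W221.NS.nsq (v s) x = (ν⁻¹) ^ 2 * W221.NS.nsq (u (s / ν)) x := by
    intro s x hx
    unfold W221.NS.nsq
    simp only [hveq s x hx, Pi.smul_apply, smul_eq_mul, mul_pow, Finset.mul_sum]
  have hintn : ∀ t ∈ Ioo 0 (ν * T), IntegrableOn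
      (fun x => (ν⁻¹) ^ 2 * W221.NS.nsq (u (t / ν)) x) (ball a R) := fun t ht =>
    ((h.en_int _ (hdiv t ht)).mono_set hbs).const_mul _
  have hpre : Ioo 0 (ν * T) ×ˢ ball a R ⊆
      (fun z : ℝ × V => (ν⁻¹ * z.1, z.2)) ⁻¹' (Ioo 0 T ×ˢ Ω) := by
    rintro ⟨t, x⟩ ⟨ht, hx⟩
    have := hdiv t ht
    rw [div_eq_inv_mul] at this
    exact ⟨this, hbs hx⟩
  have hmeas : MeasurableSet (Ioo 0 (ν * T) ×ˢ ball a R) :=
    measurableSet_Ioo.prod measurableSet_ball
  refine ⟨(ν⁻¹) ^ 2 * E, v, q, ⟨⟨isOpen_ball, smooth_cutD hν h.openO h.smooth_u hχ hχs,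
    smooth_cutD hν h.openO h.smooth_p hχ hχs, ?_, ?_⟩, ?_, ?_, ?_, ?_⟩, ?_⟩
  · intro t ht x hx
    have h1 := h.divfree _ (hdiv t ht) x (hbs hx)
    rw [Finset.sum_congr rfl fun i _ => hpd t x hx i i, ← Finset.mul_sum, h1, mul_zero]
  · intro t ht x hx i
    have h1 := h.momentum _ (hdiv t ht) x (hbs hx) i
    have e1 : deriv (fun s => v s x i) t =
        ν⁻¹ * (ν⁻¹ * deriv (fun s => u s x i) (t / ν)) := by
      have : (fun s => v s x i) = fun s => ν⁻¹ * u (s / ν) x i := by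
        funext s; rw [hveq s x hx, Pi.smul_apply, smul_eq_mul]
      rw [this]
      exact deriv_scaleD ν (fun s => u s x i) t
    have e3 : ∀ j, pd j (pd j (fun y => v t y i)) x =
        ν⁻¹ * pd j (pd j (fun y => u (t / ν) y i)) x := by
      intro j
      rw [(pd_evD (hpdev t x hx i j) j).eq_of_nhds, pd_cmulD]
    have e4 : pd i (q t) x = (ν ^ 2)⁻¹ * pd i (p (t / ν)) x := by
      have : q t =ᶠ[𝓝 x] fun y => (ν ^ 2)⁻¹ * p (t / ν) y := by
        filter_upwards [hmem x hx] with y hy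
        exact hqeq t y hy
      rw [(pd_evD this i).eq_of_nhds, pd_cmulD]
    rw [e1, e4]
    simp_rw [e3, hpd t x hx i, hveq t x hx, Pi.smul_apply, smul_eq_mul]
    rw [← Finset.mul_sum]
    have e5 : ∑ j, ν⁻¹ * u (t / ν) x j * (ν⁻¹ * pd j (fun y => u (t / ν) y i) x) =
        ν⁻¹ * (ν⁻¹ * ∑ j, u (t / ν) x j * pd j (fun y => u (t / ν) y i) x) := by
      rw [Finset.mul_sum, Finset.mul_sum]
      refine Finset.sum_congr rfl fun j _ => ?_
      ring
    rw [e5]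
    have e6 : (ν ^ 2)⁻¹ = ν⁻¹ * ν⁻¹ := by
      rw [sq, mul_inv]
    have e7 : ν⁻¹ * ν⁻¹ * ν = ν⁻¹ := by
      rw [mul_assoc, inv_mul_cancel₀ hν.ne', mul_one]
    rw [e6]
    have h2 := congrArg (fun z => ν⁻¹ * ν⁻¹ * z) h1
    simp only [mul_add, mul_sub] at h2
    rw [← mul_assoc, ← mul_assoc, h2, ← mul_assoc, e7]
  · intro t ht
    exact (hintn t ht).congr_fun (fun x hx => (hnsq t x hx).symm) measurableSet_ball
  · intro t ht
    rw [setIntegral_congr_fun measurableSet_ball (fun x hx => hnsq t x hx),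
      integral_const_mul]
    refine mul_le_mul_of_nonneg_left ?_ (by positivity)
    refine (setIntegral_mono_set (h.en_int _ (hdiv t ht)) ?_ hbs.eventuallyLE).trans
      (h.en _ (hdiv t ht))
    refine Eventually.of_forall fun x => ?_
    unfold W221.NS.nsq
    exact Finset.sum_nonneg fun i _ => sq_nonneg _
  · have h1 := ((intOn_scl (inv_pos.2 hν) h.dis).mono_set hpre).const_mul ((ν⁻¹) ^ 2)
    refine IntegrableOn.congr_fun h1 ?_ hmeas
    rintro ⟨t, x⟩ ⟨ht, hx⟩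
    simp only
    rw [hgsq t x hx, div_eq_inv_mul]
  · have h1 := ((intOn_scl (inv_pos.2 hν) h.prs).mono_set hpre).const_mul ((ν ^ 2)⁻¹)
    refine IntegrableOn.congr_fun h1 ?_ hmeas
    rintro ⟨t, x⟩ ⟨ht, hx⟩
    simp only
    rw [hqeq t x hx, div_eq_inv_mul]
  · intro t ht x hx
    rw [hveq _ x hx, mul_div_cancel_left₀ _ hν.ne']

end Pool.Agent.Q284.CL
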