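import Pool.Agent.Q85.CL.FluxL
import Pool.Agent.Q225.CC.Vel

/-!
Project CL: local form of the potential estimate for `Δ f = div G` and the pointwise bound of the
velocity under a local Morrey bound (job CL-VEL). Adapted from `Pool.Agent.Q153.VD.Core` (helper153)
and `Pool.Agent.Q225.CC.Vel` (helper225).
-/

set_option autoImplicit false

open MeasureTheory Set Metric Filter Topology
open scoped ContDiff Pointwise
open H459R3.NS

namespace Pool.Agent.Q284.CL

open Pool.Agent.Q153.VD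

section

variable {χ : V → ℝ} {K : ℝ}

/-- the basic identity; the equation is needed in the unit cube only -/
theorem identL (h : Cut χ K) {ε : ℝ} (hε : 0 < ε) {w : V → ℝ} (hw : ContDiff ℝ ∞ w)
    {g : Fin 3 → V → ℝ} (hg : ∀ i, ContDiff ℝ ∞ (g i))
    (hlap : ∀ z, ‖z‖ ≤ 1 → lap w z = ∑ i, pd i (g i) z) :
    ∫ z, w z * (χ z * D ε z) =
      (∑ i, ∫ z, w z * T χ ε i z) + ∑ i, ∫ z, g i z * A χ ε i z := by
  set Γ : V → ℝ := fun y => χ y * P ε y with hΓ
  have hΓs : ContDiff ℝ ∞ Γ := h.smooth.mul (smoothP hε)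
  have hΓc : HasCompactSupport Γ := h.cs.mul_right
  have hAc : ∀ i, HasCompactSupport (A χ ε i) := fun i => cs_of (A_zero h ε i)
  have hTc : ∀ i, HasCompactSupport (T χ ε i) := fun i => cs_of (T_zero h ε i)
  have hpA : ∀ i, pd i Γ = A χ ε i := fun i => funext fun z => pd_Gam h hε i z
  have e1 : ∀ i, ∫ z, g i z * A χ ε i z = -∫ z, pd i (g i) z * Γ z := by
    intro i
    rw [← hpA i]
    exact ibp_cs (hg i) hΓs hΓc i
  have e2 : ∀ i, ∫ z, w z * pd i (A χ ε i) z = ∫ z, pd i (pd i w) z * Γ z := by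
    intro i
    rw [ibp_cs hw (smoothA h hε i) (hAc i) i, ← hpA i,
      ibp_cs (smooth_pd hw i) hΓs hΓc i, neg_neg]
  have i1 : ∀ i, Integrable (fun z => pd i (g i) z * Γ z) := fun i =>
    ((smooth_pd (hg i) i).continuous.mul hΓs.continuous).integrable_of_hasCompactSupport
      hΓc.mul_left
  have i2 : ∀ i, Integrable (fun z => pd i (pd i w) z * Γ z) := fun i =>
    ((smooth_pd (smooth_pd hw i) i).continuous.mul
      hΓs.continuous).integrable_of_hasCompactSupport hΓc.mul_left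
  have i3 : ∀ i, Integrable (fun z => w z * pd i (A χ ε i) z) := fun i =>
    (hw.continuous.mul (smooth_pd (smoothA h hε i) i).continuous).integrable_of_hasCompactSupport
      ((hAc i).fderiv_apply ℝ (Pi.single i 1)).mul_left
  have i4 : ∀ i, Integrable (fun z => w z * T χ ε i z) := fun i =>
    (hw.continuous.mul (smoothT h hε i).continuous).integrable_of_hasCompactSupport
      (hTc i).mul_left
  have e3 : ∑ i, ∫ z, w z * pd i (A χ ε i) z = -∑ i, ∫ z, g i z * A χ ε i z := by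
    simp only [e1, e2]
    rw [Finset.sum_neg_distrib, neg_neg, ← integral_finsetSum _ (fun i _ => i1 i),
      ← integral_finsetSum _ (fun i _ => i2 i)]
    congr 1
    funext z
    rw [← Finset.sum_mul, ← Finset.sum_mul]
    rcases le_or_gt ‖z‖ 1 with hz | hz
    · rw [← hlap z hz]
      rfl
    · have h0 : Γ z = 0 := by rw [hΓ]; simp only; rw [h.supp z hz, zero_mul]
      rw [h0, mul_zero, mul_zero]
  have e4 : (fun z => w z * (χ z * D ε z)) =
      fun z => ∑ i, w z * T χ ε i z - ∑ i, w z * pd i (A χ ε i) z := by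
    funext z
    rw [← Finset.mul_sum, ← Finset.mul_sum, sum_pd_A h hε]
    ring
  rw [e4, integral_sub (integrable_finsetSum _ fun i _ => i4 i)
    (integrable_finsetSum _ fun i _ => i3 i), integral_finsetSum _ (fun i _ => i4 i),
    integral_finsetSum _ (fun i _ => i3 i), e3]
  ring

theorem coreL (h : Cut χ K) {w : V → ℝ} (hw : ContDiff ℝ ∞ w)
    {g : Fin 3 → V → ℝ} (hg : ∀ i, ContDiff ℝ ∞ (g i))
    (hlap : ∀ z, ‖z‖ ≤ 1 → lap w z = ∑ i, pd i (g i) z) :
    |w 0| * ∫ z : V, D 1 z ≤ (K + 1) * (∑ i, ∫ z in closedBall (0 : V) 1, |g i z| / ‖z‖ ^ 2) +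
      30 * K * ∫ z in closedBall (0 : V) 1, |w z| := by
  have h1 := (lim_D h hw.continuous).abs
  rw [abs_mul, abs_of_pos D_int_pos] at h1
  refine le_of_tendsto h1 (Eventually.of_forall fun n => ?_)
  have hε : (0 : ℝ) < 1 / ((n : ℝ) + 1) := by positivity
  rw [identL h hε hw hg hlap]
  refine (abs_add_le _ _).trans ?_
  have h2 : |∑ i, ∫ z, w z * T χ (1 / ((n : ℝ) + 1)) i z| ≤
      ∑ _i : Fin 3, 10 * K * ∫ z in closedBall (0 : V) 1, |w z| :=
    (Finset.abs_sum_le_sum_abs _ _).trans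
      (Finset.sum_le_sum fun i _ => int_wT h hε i hw.continuous)
  have h3 : |∑ i, ∫ z, g i z * A χ (1 / ((n : ℝ) + 1)) i z| ≤
      ∑ i, (K + 1) * ∫ z in closedBall (0 : V) 1, |g i z| / ‖z‖ ^ 2 :=
    (Finset.abs_sum_le_sum_abs _ _).trans
      (Finset.sum_le_sum fun i _ => int_gA h hε i (hg i).continuous)
  rw [← Finset.mul_sum] at h3
  rw [Finset.sum_const, Finset.card_univ, Fintype.card_fin, nsmul_eq_mul] at h2
  have e : ((3 : ℕ) : ℝ) * (10 * K * ∫ z in closedBall (0 : V) 1, |w z|) =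
      30 * K * ∫ z in closedBall (0 : V) 1, |w z| := by
    push_cast
    ring
  linarith

end

/-- The potential estimate in one cube. -/
theorem potL : ∃ C : ℝ, 0 < C ∧ ∀ (ρ : ℝ) (f : V → ℝ) (G : Fin 3 → V → ℝ) (x : V), 0 < ρ →
    ContDiff ℝ ∞ f → (∀ i, ContDiff ℝ ∞ (G i)) →
    (∀ y, ‖y - x‖ ≤ ρ → lap f y = ∑ i, pd i (G i) y) →
    |f x| ≤ C * ((∑ i, Pool.Agent.Q67.VD.pot ρ (G i) x)
      + (∫ z in closedBall (0 : V) ρ, |f (x + z)|) / ρ ^ 3) := by
  obtain ⟨χ, K, hχ⟩ := exists_cut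
  have hc := D_int_pos
  set c : ℝ := ∫ z : V, D 1 z with hcdef
  have hK := hχ.Kpos
  refine ⟨(31 * K + 1) / c, by positivity, ?_⟩
  intro ρ f G x hρ hf hG hlap
  have h1 := coreL hχ (w := fun z : V => f (x + ρ • z)) (smooth_aff hf x ρ)
    (g := fun i z => ρ * G i (x + ρ • z))
    (fun i => contDiff_const.mul (smooth_aff (hG i) x ρ)) (by
      intro z hz
      rw [lap_aff hf, hlap _ (by
        rw [add_sub_cancel_left, norm_smul, Real.norm_eq_abs, abs_of_pos hρ]
        nlinarith [norm_nonneg z]), Finset.mul_sum]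
      refine Finset.sum_congr rfl fun i _ => ?_
      rw [pd_const_mul (smooth_aff (hG i) x ρ), pd_aff (hG i)]
      ring)
  simp only [smul_zero, add_zero, pot_scale hρ, avg_scale hρ] at h1
  have hS : 0 ≤ ∑ i, Pool.Agent.Q67.VD.pot ρ (G i) x :=
    Finset.sum_nonneg fun i _ => integral_nonneg fun z => by positivity
  have hT : 0 ≤ (∫ z in closedBall (0 : V) ρ, |f (x + z)|) / ρ ^ 3 :=
    div_nonneg (integral_nonneg fun z => abs_nonneg _) (by positivity)
  rw [div_mul_eq_mul_div, le_div_iff₀ hc]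
  refine h1.trans ?_
  nlinarith [mul_nonneg hK hS, mul_nonneg hK hT]

end Pool.Agent.Q284.CL
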