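import Pool.Agent.Q284.CL.PotL

/-!
Project CL: pointwise bound of the velocity and of the mollified velocity under a local Morrey
bound (job CL-VEL). Adapted from `Pool.Agent.Q225.CC.Vel` (helper225).
-/

set_option autoImplicit false

open MeasureTheory Set Metric Filter Topology
open scoped ContDiff
open H459R3.NS Pool.Agent.W268.NS Pool.Agent.Q67.VD

namespace Pool.Agent.Q284.CL

open Pool.Agent.Q85.CC Pool.Agent.Q85.CL

/-! ### Potentials of continuous functions -/

theorem pot_int {f : V → ℝ} (hc : Continuous f) (ρ : ℝ) (x : V) :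
    IntegrableOn (fun z => |f (x + z)| / ‖z‖ ^ 2) (closedBall 0 ρ) := by
  have h1 : IntegrableOn (fun z : V => |f (x + z)| * (‖z‖ ^ 2)⁻¹) (closedBall 0 ρ) :=
    (ker_int ρ).continuousOn_mul
      (hc.comp (continuous_const.add continuous_id)).abs.continuousOn (isCompact_closedBall 0 ρ)
  exact h1

theorem pot_contL {f : V → ℝ} (hc : Continuous f) (ρ : ℝ) : Continuous (pot ρ f) := by
  rw [continuous_iff_continuousAt]
  intro x
  obtain ⟨B, hB⟩ := (isCompact_closedBall x (1 + ρ)).exists_bound_of_continuousOn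
    (f := f) hc.continuousOn
  unfold pot
  refine continuousAt_of_dominated (bound := fun z => B * (‖z‖ ^ 2)⁻¹) ?_ ?_
    ((ker_int ρ).const_mul B) ?_
  · exact Eventually.of_forall fun x' => (pot_int hc ρ x').aestronglyMeasurable
  · filter_upwards [closedBall_mem_nhds x one_pos] with x' hx'
    refine ae_restrict_of_forall_mem measurableSet_closedBall fun z hz => ?_
    rw [Real.norm_eq_abs, abs_div, abs_abs, abs_of_nonneg (sq_nonneg ‖z‖), div_eq_mul_inv]
    refine mul_le_mul_of_nonneg_right ?_ (by positivity)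
    have h1 : x' + z ∈ closedBall x (1 + ρ) := by
      rw [mem_closedBall, dist_eq_norm] at hx' ⊢
      rw [mem_closedBall_zero_iff] at hz
      calc ‖x' + z - x‖ = ‖(x' - x) + z‖ := by congr 1; abel
        _ ≤ ‖x' - x‖ + ‖z‖ := norm_add_le _ _
        _ ≤ 1 + ρ := add_le_add hx' hz
    exact hB _ h1
  · refine Eventually.of_forall fun z => ?_
    exact ((hc.comp (continuous_id.add continuous_const)).abs.div_const _).continuousAt

theorem pot_leL {f g : V → ℝ} (hf : Continuous f) (hg : Continuous g) {ρ : ℝ} {x : V}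
    (h : ∀ z, |f z| ≤ |g z|) : pot ρ f x ≤ pot ρ g x := by
  unfold pot
  refine setIntegral_mono_on (pot_int hf ρ x) (pot_int hg ρ x) measurableSet_closedBall
    fun z _ => ?_
  exact div_le_div_of_nonneg_right (h _) (by positivity)

theorem pot_stepL {f : V → ℝ} (hc : Continuous f) {M a b : ℝ} (hb : 0 < b) (hba : b ≤ a) (y : V)
    (hM : ∫ z in closedBall y a, |f z| ≤ M) : pot a f y ≤ pot b f y + M / b ^ 2 := by
  have hsub : closedBall (0 : V) b ⊆ closedBall 0 a := closedBall_subset_closedBall hba
  have hi := pot_int hc a y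
  have hfa : Continuous fun z : V => |f (y + z)| := (hc.comp (continuous_const.add continuous_id)).abs
  have hi2 : IntegrableOn (fun z : V => |f (y + z)|) (closedBall (0 : V) a) :=
    hfa.continuousOn.integrableOn_compact (isCompact_closedBall _ _)
  unfold pot
  have e1 : ∫ z in closedBall (0 : V) a, |f (y + z)| / ‖z‖ ^ 2
      = (∫ z in closedBall (0 : V) b, |f (y + z)| / ‖z‖ ^ 2)
        + ∫ z in closedBall (0 : V) a \ closedBall 0 b, |f (y + z)| / ‖z‖ ^ 2 := by
    rw [← setIntegral_union disjoint_sdiff_right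
      (measurableSet_closedBall.diff measurableSet_closedBall) (hi.mono_set hsub)
      (hi.mono_set sdiff_subset), union_sdiff_cancel hsub]
  rw [e1]
  have e2 : ∫ z in closedBall (0 : V) a \ closedBall 0 b, |f (y + z)| / ‖z‖ ^ 2
      ≤ ∫ z in closedBall (0 : V) a \ closedBall 0 b, |f (y + z)| / b ^ 2 := by
    have hi3 : IntegrableOn (fun z : V => |f (y + z)| / b ^ 2) (closedBall (0 : V) a) :=
      hi2.div_const (b ^ 2)
    refine setIntegral_mono_on (hi.mono_set sdiff_subset)
      (hi3.mono_set sdiff_subset)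
      (measurableSet_closedBall.diff measurableSet_closedBall) fun z hz => ?_
    have hz2 : b < ‖z‖ := by
      have := hz.2
      rw [mem_closedBall_zero_iff, not_le] at this
      exact this
    exact div_le_div_of_nonneg_left (abs_nonneg _) (by positivity)
      (pow_le_pow_left₀ hb.le hz2.le 2)
  have e3 : ∫ z in closedBall (0 : V) a \ closedBall 0 b, |f (y + z)| / b ^ 2
      ≤ ∫ z in closedBall (0 : V) a, |f (y + z)| / b ^ 2 :=
    setIntegral_mono_set (hi2.div_const (b ^ 2))
      (Eventually.of_forall fun z => by positivity) sdiff_subset.eventuallyLE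
  have e4 : ∫ z in closedBall (0 : V) a, |f (y + z)| / b ^ 2 ≤ M / b ^ 2 := by
    rw [integral_div, Pool.Agent.Q225.CC.int_shift_ball (fun z => |f z|) y a]
    exact div_le_div_of_nonneg_right hM (by positivity)
  linarith

theorem pot_annL {f : V → ℝ} (hc : Continuous f) {K ρ r : ℝ} {y : V}
    (hM : ∀ s, 0 < s → s ≤ ρ → ∫ z in closedBall y s, |f z| ≤ K * s)
    (hK : 0 ≤ K) (hr : 0 < r) (n : ℕ) : ∀ a : ℝ, r ≤ a → a ≤ 2 ^ n * r → a ≤ ρ →
      pot a f y ≤ pot r f y + 6 * K / r - 4 * K / a := by
  induction n with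
  | zero =>
    intro a h1 h2 _
    rw [pow_zero, one_mul] at h2
    obtain rfl : a = r := le_antisymm h2 h1
    have : 0 ≤ K / a := by positivity
    have e : 6 * K / a - 4 * K / a = 2 * (K / a) := by ring
    linarith
  | succ n ih =>
    intro a h1 h2 h3
    have ha : 0 < a := hr.trans_le h1
    rcases le_or_gt r (a / 2) with h | h
    · have h4 := ih (a / 2) h (by rw [pow_succ] at h2; linarith) (by linarith)
      have h5 := pot_stepL hc (b := a / 2) (a := a) (by positivity) (by linarith) y (hM a ha h3)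
      have e1 : K * a / (a / 2) ^ 2 = 4 * K / a := by
        field_simp
        ring
      have e2 : 4 * K / (a / 2) = 8 * K / a := by
        field_simp
        ring
      have e3 : 8 * K / a = 4 * K / a + 4 * K / a := by ring
      rw [e1] at h5
      rw [e2, e3] at h4
      linarith
    · have h5 := pot_stepL hc (b := r) (a := a) hr h1 y (hM a ha h3)
      have e1 : K * a / r ^ 2 ≤ 2 * K / r := by
        rw [div_le_div_iff₀ (by positivity) hr]
        have : 0 ≤ K * r := by positivity
        nlinarith [mul_nonneg hK hr.le]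
      have e2 : 4 * K / a ≤ 4 * K / r := div_le_div_of_nonneg_left (by positivity) hr h1
      have e3 : 6 * K / r = 2 * K / r + 4 * K / r := by ring
      linarith

theorem pot_le_potL {f : V → ℝ} (hc : Continuous f) {K ρ r a : ℝ} {y : V}
    (hM : ∀ s, 0 < s → s ≤ ρ → ∫ z in closedBall y s, |f z| ≤ K * s)
    (hK : 0 ≤ K) (hr : 0 < r) (ha : 0 < a) (haρ : a ≤ ρ) :
    pot a f y ≤ pot r f y + 6 * K / r := by
  rcases le_total a r with h | h
  · have h1 : pot a f y ≤ pot r f y :=
      setIntegral_mono_set (pot_int hc r y)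
        (Eventually.of_forall fun z => by positivity)
        (closedBall_subset_closedBall h).eventuallyLE
    have h2 : 0 ≤ 6 * K / r := by positivity
    linarith
  · obtain ⟨n, hn⟩ := pow_unbounded_of_one_lt (a / r) (by norm_num : (1 : ℝ) < 2)
    rw [div_lt_iff₀ hr] at hn
    have h1 := pot_annL hc hM hK hr n a h hn.le haρ
    have h2 : 0 ≤ 4 * K / a := by positivity
    linarith

/-! ### The equation of the velocity -/

theorem pd_sumL {f : Fin 3 → V → ℝ} (hf : ∀ m, ContDiff ℝ ∞ (f m)) (i : Fin 3) (x : V) :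
    pd i (fun y => ∑ m, f m y) x = ∑ m, pd i (f m) x := by
  unfold pd
  have h : HasFDerivAt (fun y => ∑ m, f m y) _ x :=
    HasFDerivAt.fun_sum fun m _ => ((hf m).differentiable (by norm_num) x).hasFDerivAt
  rw [h.fderiv]
  simp

theorem pd_subL {f g : V → ℝ} (hf : ContDiff ℝ ∞ f) (hg : ContDiff ℝ ∞ g) (j : Fin 3) (x : V) :
    pd j (fun y => f y - g y) x = pd j f x - pd j g x := by
  unfold pd
  have h : HasFDerivAt (fun y => f y - g y) _ x :=
    ((hf.differentiable (by norm_num) x).hasFDerivAt).sub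
      ((hg.differentiable (by norm_num) x).hasFDerivAt)
  rw [h.fderiv]
  rfl

theorem sm_cur {v : V → V} (hv : SM v) (i j : Fin 3) : ContDiff ℝ ∞ (cur i j v) :=
  (sm_pdL (hv j) i).sub (sm_pdL (hv i) j)

theorem lap_curL {v : V → V} (hv : SM v) {O : Set V} (hO : IsOpen O) (hdiv : DFO O v) (i : Fin 3)
    {x : V} (hx : x ∈ O) : lap (fun y => v y i) x = ∑ m, pd m (cur m i v) x := by
  have h1 : ∀ m, pd m (cur m i v) x
      = pd m (pd m (fun y => v y i)) x - pd i (pd m (fun y => v y m)) x := by
    intro m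
    have h2 := pd_subL (sm_pdL (hv i) m) (sm_pdL (hv m) i) m x
    rw [Pool.Agent.Q151.CC.pd_comm' (hv m) m i] at h2
    exact h2
  simp_rw [h1]
  rw [Finset.sum_sub_distrib]
  have h3 : ∑ m, pd i (pd m (fun y => v y m)) x = 0 := by
    have h4 : pd i (fun y => ∑ m, pd m (fun y => v y m) y) x
        = ∑ m, pd i (pd m (fun y => v y m)) x := pd_sumL (fun m => sm_pdL (hv m) m) i x
    have h5 : (fun y => ∑ m, pd m (fun y => v y m) y) =ᶠ[𝓝 x] fun _ => (0 : ℝ) := by
      filter_upwards [hO.mem_nhds hx] with y hy using hdiv y hy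
    rw [← h4]
    have h6 : pd i (fun y => ∑ m, pd m (fun y => v y m) y) x = pd i (fun _ => (0 : ℝ)) x := by
      show fderiv ℝ (fun y => ∑ m, pd m (fun y => v y m) y) x (Pi.single i 1)
        = fderiv ℝ (fun _ => (0 : ℝ)) x (Pi.single i 1)
      rw [Filter.EventuallyEq.fderiv_eq h5]
    rw [h6]
    unfold pd
    simp
  rw [h3, sub_zero]
  rfl

/-! ### The pointwise bound -/

theorem vel_ptL : ∃ C : ℝ, 0 < C ∧ ∀ (v : V → V) (a : V) (K ρ r : ℝ), SM v →
    DFO (ball a ρ) v → 0 ≤ K → 0 < r → r ≤ ρ / 4 → MorB K a ρ (om v) →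
    ∀ y, ‖y - a‖ ≤ 3 * ρ / 4 → ∀ i,
      |v y i| ≤ C * (pot r (om v) y + K / r
        + √((∫ z in closedBall a ρ, W221.NS.nsq v z) / ρ ^ 3)) := by
  obtain ⟨C, hC, hP⟩ := potL
  refine ⟨64 * C, by positivity, ?_⟩
  intro v a K ρ r hv hdiv hK hr hrρ hM y hy i
  have hρ : 0 < ρ := by linarith
  set N := ∫ z in closedBall a ρ, W221.NS.nsq v z with hN
  have hN0 : 0 ≤ N := integral_nonneg fun z => Finset.sum_nonneg fun i _ => sq_nonneg _
  have hoc := om_contL hv
  have h1 := hP (ρ / 8) (fun y => v y i) (fun m => cur m i v) y (by positivity)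
    (hv i) (fun m => sm_cur hv m i) (fun z hz => lap_curL hv isOpen_ball hdiv i (by
      rw [mem_ball, dist_eq_norm]
      calc ‖z - a‖ = ‖(z - y) + (y - a)‖ := by congr 1; abel
        _ ≤ ‖z - y‖ + ‖y - a‖ := norm_add_le _ _
        _ < ρ := by linarith))
  have hMy : ∀ s, 0 < s → s ≤ ρ / 8 → ∫ z in closedBall y s, |om v z| ≤ K * s :=
    fun s h1 h2 => hM y s h1 (by linarith)
  have h2 : ∀ m, pot (ρ / 8) (cur m i v) y ≤ pot r (om v) y + 6 * K / r := by
    intro m
    have h3 : pot (ρ / 8) (cur m i v) y ≤ pot (ρ / 8) (om v) y :=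
      pot_leL (sm_cur hv m i).continuous hoc fun z => by
        rw [abs_of_nonneg (Pool.Agent.Q199.VD.om_nonneg v z)]
        exact Pool.Agent.Q225.CC.cur_le m i z
    exact h3.trans (pot_le_potL hoc hMy hK hr (by positivity) le_rfl)
  have h3 : ∑ m, pot (ρ / 8) (cur m i v) y ≤ 3 * (pot r (om v) y + 6 * K / r) := by
    rw [Fin.sum_univ_three]
    linarith [h2 0, h2 1, h2 2]
  have hsub : closedBall y (ρ / 8) ⊆ closedBall a ρ := by
    intro z hz
    rw [mem_closedBall, dist_eq_norm] at hz ⊢
    calc ‖z - a‖ = ‖(z - y) + (y - a)‖ := by congr 1; abel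
      _ ≤ ‖z - y‖ + ‖y - a‖ := norm_add_le _ _
      _ ≤ ρ := by linarith
  have h4 : (∫ z in closedBall (0 : V) (ρ / 8), |v (y + z) i|) / (ρ / 8) ^ 3
      ≤ 64 * √(N / ρ ^ 3) := by
    rw [Pool.Agent.Q225.CC.int_shift_ball (fun z => |v z i|) y (ρ / 8)]
    have e8 : ρ / 8 = (ρ / 4) / 2 := by ring
    have h5 : ∫ z in closedBall y ((ρ / 4) / 2), v z i ^ 2 ≤ N := by
      rw [← e8]
      refine (integral_mono
        (((hv i).continuous.pow 2).continuousOn.integrableOn_compact (isCompact_closedBall _ _))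
        ((nsq_contL hv).continuousOn.integrableOn_compact (isCompact_closedBall _ _))
        fun z => Finset.single_le_sum (f := fun i => v z i ^ 2) (fun _ _ => sq_nonneg _)
          (Finset.mem_univ i)).trans ?_
      exact setIntegral_mono_set
        ((nsq_contL hv).continuousOn.integrableOn_compact (isCompact_closedBall _ _))
        (Eventually.of_forall fun z => Finset.sum_nonneg fun i _ => sq_nonneg _)
        hsub.eventuallyLE
    have h6 := ball_csL (hv i).continuous y (R := ρ / 4) (by positivity) h5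
    rw [← e8] at h6
    have e1 : √((ρ / 4) ^ 3 * N) = ρ ^ 3 / 8 * √(N / ρ ^ 3) := by
      have e2 : (ρ / 4) ^ 3 * N = (ρ ^ 3 / 8) ^ 2 * (N / ρ ^ 3) := by
        field_simp
        ring
      rw [e2, Real.sqrt_mul (by positivity), Real.sqrt_sq (by positivity)]
    rw [e1] at h6
    rw [div_le_iff₀ (by positivity)]
    calc ∫ z in closedBall y (ρ / 8), |v z i| ≤ ρ ^ 3 / 8 * √(N / ρ ^ 3) := h6
      _ = 64 * √(N / ρ ^ 3) * (ρ / 8) ^ 3 := by ring
  have hp0 := pot_nonneg (om v) r y
  have hE0 : 0 ≤ √(N / ρ ^ 3) := Real.sqrt_nonneg _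
  have hK0 : 0 ≤ K / r := by positivity
  calc |v y i| ≤ C * ((∑ m, pot (ρ / 8) (cur m i v) y) +
        (∫ z in closedBall (0 : V) (ρ / 8), |v (y + z) i|) / (ρ / 8) ^ 3) := h1
    _ ≤ C * (3 * (pot r (om v) y + 6 * K / r) + 64 * √(N / ρ ^ 3)) := by gcongr
    _ ≤ C * (64 * (pot r (om v) y + K / r + √(N / ρ ^ 3))) := by
        refine mul_le_mul_of_nonneg_left ?_ hC.le
        have e : 6 * K / r = 6 * (K / r) := by ring
        rw [e]
        linarith
    _ = _ := by ring

/-! ### The mollified velocity -/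

/-- The average of the potential. -/
theorem avg_potL {f : V → ℝ} (hc : Continuous f) {K r : ℝ} (hr : 0 < r) {y : V}
    (hM : ∀ x, ‖x - y‖ ≤ r → ∫ z in closedBall x r, |f z| ≤ K * r) :
    ∫ z in closedBall (0 : V) 1, pot r f (y + r • z) ≤ 24 * K / r := by
  obtain ⟨B, hB⟩ := (isCompact_closedBall y (2 * r)).exists_bound_of_continuousOn
    (f := f) hc.continuousOn
  unfold pot
  have hswap := integral_integral_swap (μ := volume.restrict (closedBall (0 : V) 1))
    (ν := volume.restrict (closedBall (0 : V) r))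
    (f := fun z w => |f (y + r • z + w)| / ‖w‖ ^ 2) ?_
  · rw [hswap]
    have h1 : ∀ w ∈ closedBall (0 : V) r,
        ∫ z in closedBall (0 : V) 1, |f (y + r • z + w)| / ‖w‖ ^ 2
        ≤ K / r ^ 2 * (‖w‖ ^ 2)⁻¹ := by
      intro w hw
      rw [integral_div, div_eq_mul_inv]
      refine mul_le_mul_of_nonneg_right ?_ (by positivity)
      have e : ∀ z, |f (y + r • z + w)| = (fun x => |f x|) ((y + w) + r • z) := fun z => by
        simp only
        congr 2
        abel
      simp_rw [e]
      rw [Pool.Agent.Q225.CC.int_scale_ball (fun x => |f x|) (y + w) hr]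
      have h2 := hM (y + w) (by
        rw [add_sub_cancel_left]
        exact mem_closedBall_zero_iff.1 hw)
      calc (r ^ 3)⁻¹ * ∫ y in closedBall (y + w) r, |f y| ≤ (r ^ 3)⁻¹ * (K * r) := by gcongr
        _ = K / r ^ 2 := by field_simp
    have h3 : ∫ w in closedBall (0 : V) r, ∫ z in closedBall (0 : V) 1,
        |f (y + r • z + w)| / ‖w‖ ^ 2 ≤ ∫ w in closedBall (0 : V) r, K / r ^ 2 * (‖w‖ ^ 2)⁻¹ :=
      integral_mono_of_nonneg (Eventually.of_forall fun w => integral_nonneg fun z => by
        positivity) ((ker_int r).const_mul _)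
        (ae_restrict_of_forall_mem measurableSet_closedBall h1)
    refine h3.trans (le_of_eq ?_)
    rw [integral_const_mul, ker_val hr.le]
    field_simp
  · have h1 : Integrable (fun q : V × V => B * (‖q.2‖ ^ 2)⁻¹)
        ((volume.restrict (closedBall (0 : V) 1)).prod (volume.restrict (closedBall (0 : V) r))) := by
      have h2 : Integrable (fun _ : V => B) (volume.restrict (closedBall (0 : V) 1)) :=
        (continuous_const.continuousOn.integrableOn_compact (isCompact_closedBall (0 : V) 1))
      exact h2.mul_prod (ker_int r)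
    refine h1.mono' ?_ ?_
    · refine Measurable.aestronglyMeasurable ?_
      have h1 : Measurable f := hc.measurable
      unfold Function.uncurry
      fun_prop
    · rw [Measure.prod_restrict]
      refine ae_restrict_of_forall_mem
        (measurableSet_closedBall.prod measurableSet_closedBall) fun q hq => ?_
      rw [Function.uncurry, Real.norm_eq_abs, abs_div, abs_abs, abs_of_nonneg (sq_nonneg ‖q.2‖),
        div_eq_mul_inv]
      refine mul_le_mul_of_nonneg_right ?_ (by positivity)
      have h3 : y + r • q.1 + q.2 ∈ closedBall y (2 * r) := by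
        rw [mem_closedBall, dist_eq_norm]
        have h4 : ‖q.1‖ ≤ 1 := mem_closedBall_zero_iff.1 hq.1
        have h5 : ‖q.2‖ ≤ r := mem_closedBall_zero_iff.1 hq.2
        calc ‖y + r • q.1 + q.2 - y‖ = ‖r • q.1 + q.2‖ := by congr 1; abel
          _ ≤ ‖r • q.1‖ + ‖q.2‖ := norm_add_le _ _
          _ = r * ‖q.1‖ + ‖q.2‖ := by rw [norm_smul, Real.norm_eq_abs, abs_of_pos hr]
          _ ≤ 2 * r := by nlinarith
      exact hB _ h3

/-- Pointwise bound of the velocity under a local Morrey bound. -/
theorem velL : StmVelL := by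
  obtain ⟨C, hC, hP⟩ := vel_ptL
  obtain ⟨B, hB, hthB, hth0, hths, hthc, hthi⟩ := Pool.Agent.Q225.CC.th_bdd
  refine ⟨C * (1 + 24 * B), by positivity, ?_⟩
  intro v a K ρ r hv hdiv hK hr hrρ hM y hy i
  have hρ : 0 < ρ := by linarith
  set H := √((∫ z in closedBall a ρ, W221.NS.nsq v z) / ρ ^ 3) with hH
  have hE0 : 0 ≤ H := Real.sqrt_nonneg _
  have hK0 : 0 ≤ K / r := by positivity
  have hB24 : (1 : ℝ) ≤ 1 + 24 * B := by linarith
  have hoc := om_contL hv
  constructor
  · have h1 := hP v a K ρ r hv hdiv hK hr hrρ hM y (by linarith) i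
    have hp0 := pot_nonneg (om v) r y
    refine h1.trans ?_
    rw [mul_assoc]
    refine mul_le_mul_of_nonneg_left ?_ hC.le
    exact le_mul_of_one_le_left (by positivity) hB24
  · have hcp : Continuous fun z : V => pot r (om v) (y + r • z) :=
      (pot_contL hoc r).comp (by fun_prop)
    have hcs : ∀ g : V → ℝ, Continuous g → Integrable fun z => W221.NS.th z * g z := by
      intro g hg
      refine (hthc.mul hg).integrable_of_hasCompactSupport ?_
      exact (W221.NS.bmp.hasCompactSupport_normed (μ := volume)).mul_right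
    have h1 : |∫ z, W221.NS.th z * v (y + r • z) i|
        ≤ ∫ z, W221.NS.th z * (C * (pot r (om v) (y + r • z) + K / r + H)) := by
      refine abs_integral_le_integral_abs.trans ?_
      refine integral_mono_of_nonneg (Eventually.of_forall fun z => abs_nonneg _)
        (hcs _ (continuous_const.mul ((hcp.add continuous_const).add continuous_const)))
        (Eventually.of_forall fun z => ?_)
      show |W221.NS.th z * v (y + r • z) i|
        ≤ W221.NS.th z * (C * (pot r (om v) (y + r • z) + K / r + H))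
      rw [abs_mul, abs_of_nonneg (hth0 z)]
      by_cases hz : z ∈ closedBall (0 : V) 1
      · refine mul_le_mul_of_nonneg_left (hP v a K ρ r hv hdiv hK hr hrρ hM (y + r • z) ?_ i)
          (hth0 z)
        have h4 : ‖z‖ ≤ 1 := mem_closedBall_zero_iff.1 hz
        calc ‖y + r • z - a‖ = ‖(y - a) + r • z‖ := by congr 1; abel
          _ ≤ ‖y - a‖ + ‖r • z‖ := norm_add_le _ _
          _ = ‖y - a‖ + r * ‖z‖ := by rw [norm_smul, Real.norm_eq_abs, abs_of_pos hr]
          _ ≤ 3 * ρ / 4 := by nlinarith
      · rw [hths z hz, zero_mul, zero_mul]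
    have h2 : ∫ z, W221.NS.th z * (C * (pot r (om v) (y + r • z) + K / r + H))
        = C * (∫ z, W221.NS.th z * pot r (om v) (y + r • z)) + C * (K / r + H) := by
      have e1 : ∀ z, W221.NS.th z * (C * (pot r (om v) (y + r • z) + K / r + H))
          = C * (W221.NS.th z * pot r (om v) (y + r • z))
            + C * (K / r + H) * W221.NS.th z := fun z => by ring
      simp_rw [e1]
      have i1 : Integrable fun z => C * (W221.NS.th z * pot r (om v) (y + r • z)) :=
        (hcs _ hcp).const_mul C
      have i2 : Integrable fun z => C * (K / r + H) * W221.NS.th z := by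
        have := (hcs (fun _ => 1) continuous_const).const_mul (C * (K / r + H))
        simpa only [mul_one] using this
      rw [integral_add i1 i2, integral_const_mul, integral_const_mul, hthi, mul_one]
    have h3 : ∫ z, W221.NS.th z * pot r (om v) (y + r • z) ≤ B * (24 * K / r) := by
      rw [← setIntegral_eq_integral_of_forall_compl_eq_zero (s := closedBall (0 : V) 1)
        (f := fun z => W221.NS.th z * pot r (om v) (y + r • z))
        (fun z hz => by rw [hths z hz, zero_mul])]
      have h4 : ∫ z in closedBall (0 : V) 1, W221.NS.th z * pot r (om v) (y + r • z)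
          ≤ ∫ z in closedBall (0 : V) 1, B * pot r (om v) (y + r • z) := by
        refine integral_mono_of_nonneg (Eventually.of_forall fun z =>
          mul_nonneg (hth0 z) (pot_nonneg _ _ _))
          ((continuous_const.mul hcp).continuousOn.integrableOn_compact (isCompact_closedBall _ _))
          (Eventually.of_forall fun z => ?_)
        exact mul_le_mul_of_nonneg_right (hthB z) (pot_nonneg _ _ _)
      refine h4.trans ?_
      rw [integral_const_mul]
      refine mul_le_mul_of_nonneg_left (avg_potL hoc hr fun x hx => ?_) hB.le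
      refine hM x r hr ?_
      have h5 : ‖x - a‖ ≤ ‖x - y‖ + ‖y - a‖ := by
        calc ‖x - a‖ = ‖(x - y) + (y - a)‖ := by congr 1; abel
          _ ≤ _ := norm_add_le _ _
      linarith
    rw [h2] at h1
    refine h1.trans ?_
    have h5 : C * (∫ z, W221.NS.th z * pot r (om v) (y + r • z)) ≤ C * (B * (24 * K / r)) :=
      mul_le_mul_of_nonneg_left h3 hC.le
    have e : 24 * K / r = 24 * (K / r) := by ring
    rw [e] at h5
    have h6 : 0 ≤ C * (24 * B * H) := by positivity
    nlinarith

end Pool.Agent.Q284.CL
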